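import Pool.Agent.Lib.MP_cd5b91_an.CQ.KAxis
import Pool.Agent.Lib.MP_cd5b91_an.CQ.Supp
import Pool.Agent.Lib.MP_cd5b91_an.CQ.Nehari

/-!
# Axially symmetric ground states of the critical curl-curl equation have full support

Question Q1 for the axially symmetric ground states, with or without swirl, and more generally for the
axially symmetric weak solutions of energy less than twice the least energy of their symmetry class.
-/

namespace Pool.Agent.Results.MP_cd5b91_an.AxisymmetricFullSupport

open Pool.CQ

/-- Suppose that

* `u` is a ground state of `∇ × (∇ × u) = |u|⁴ u` on `ℝ³` (a minimiser of the energy on the set `𝒩` of the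
  problem), axially symmetric about the line `a + ℝ e` (for every rotation `R` about this line,
  `u (R x) = R' (u x)` for almost every `x`, with `R'` the linear part of `R`), or
* `u` is a nontrivial weak solution in the class `K` of the axially symmetric fields about this line, or
  of those without swirl, or of those of pure swirl, and `∫ |u|⁶ < 2 S^{3/2}`, where `S > 0` is a
  constant in the curl-Sobolev inequality for the fields of the class `K`.

Then the support of `u` is the whole space. -/
theorem result :
    ∀ e a : E, ‖e‖ = 1 → ∀ u B : E → E,
      ((MinN u B ∧ AxiAt e a u) ∨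
        ∃ (K : (E → E) → Prop) (S : ℝ),
          (K = AxiAt e a ∨ K = PolAt e a ∨ K = TorAt e a) ∧ K u ∧ LowK K S u B) →
      esupp u = Set.univ := by
  intro e a he u B h
  refine Set.eq_univ_of_forall fun x O hO hx => ?_
  rcases h with ⟨h, hu⟩ | ⟨K, S, hK, hu, h⟩
  · exact Pool.CQ.K.full_support_gs he a (gs_of_min h) hu hO ⟨x, hx⟩
  · exact Pool.CQ.K.full_support_axis he a hK hu h hO ⟨x, hx⟩

end Pool.Agent.Results.MP_cd5b91_an.AxisymmetricFullSupport
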