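import Pool.Agent.Lib.MP_cd5b91_an.CQ.Pub
import Pool.Agent.Lib.MP_cd5b91_an.CQ.IDir
import Pool.Agent.Lib.MP_cd5b91_an.CQ.Nehari
import Pool.Agent.Lib.MP_cd5b91_an.CQ.KAxis

/-!
# Ground states of the critical curl-curl equation whose curl has a C^1 direction have full support

Questions Q1 and Q2 for the ground states whose curl is a multiple (of any sign) of a nonvanishing vector
field of class `C¹` off a closed set of locally finite one-dimensional Minkowski content.
-/

open MeasureTheory Set
open scoped ContDiff RealInnerProductSpace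

namespace Pool.Agent.Results.MP_cd5b91_an.FullSupportDirection

open Pool.CQ

/-- Let `O ⊆ ℝ³` be a connected open set, `β` a vector field of class `C¹` on `O` without zeros, and let `u` be

* a ground state of `∇ × (∇ × u) = |u|⁴ u` on `ℝ³` (a minimiser of the energy on the set `𝒩` of the
  problem), or
* a nontrivial weak solution with `∫ |u|⁶ < 2 S^{3/2}`, where `S > 0` is a constant in the curl-Sobolev
  inequality (energy less than twice the least energy).

Suppose that `B = ∇ × u` is a real multiple of `β` at almost every point of `O`, and that the complement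
`Z` of `O` has locally finite one-dimensional (upper) Minkowski content, or, more generally,
`ε⁻¹ ∫_{dist(x, Z) ≤ ε, |x| ≤ R} |B| → 0` for all `R` (along `ε = 4/(n+1)`). Then every point of `O` is in
the support of `u`; in the first case the support of `u` is the whole space. -/
theorem result :
    ∀ (O : Set E) (β u B : E → E), IsOpen O → IsPreconnected O → ContDiffOn ℝ 1 β O →
      (∀ x ∈ O, β x ≠ 0) →
      (MinN u B ∨ ∃ S : ℝ, LowK (fun _ => True) S u B) →
      (∀ᵐ x ∂(volume.restrict O), ∃ t : ℝ, B x = t • β x) →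
      (Thin Oᶜ → esupp u = univ) ∧ (Neg Oᶜ B → O ⊆ esupp u) := by
  intro O β u B hO hOc hβ h0 hg hs
  obtain ⟨S, hl⟩ : ∃ S : ℝ, LowK (fun _ => True) S u B := by
    rcases hg with hm | hl
    · exact ⟨_, Pool.CQ.K.low_of_gs (gs_of_min hm) (fun _ => True)⟩
    · exact hl
  have hneg : Neg Oᶜ B → O ⊆ esupp u := fun hn => Pool.CQ.I.full_dir1 hl hO hOc hβ h0 hn hs
  refine ⟨fun ht => ?_, hneg⟩
  have hsub : O ⊆ esupp u :=
    hneg (neg_of_thin ht (lpl_two (le_refl (2 : ENNReal)) hl.sol.1.2.1 _))
  have hnull : volume Oᶜ = 0 := thin_null ht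
  refine eq_univ_of_forall fun x U hU hxU hUz => ?_
  obtain ⟨y, hyU, hyO⟩ : (U ∩ O).Nonempty := by
    by_contra hemp
    rw [not_nonempty_iff_eq_empty] at hemp
    have h3 : U ⊆ Oᶜ := fun y hy hyO => by
      have : y ∈ U ∩ O := ⟨hy, hyO⟩
      rw [hemp] at this
      exact this
    exact (hU.measure_pos volume ⟨x, hxU⟩).ne' (measure_mono_null h3 hnull)
  exact hsub hyO U hU hyU hUz

end Pool.Agent.Results.MP_cd5b91_an.FullSupportDirection
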