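import Pool.Agent.Lib.MP_cd5b91_an.CQ.KConn
import Pool.Agent.Lib.MP_cd5b91_an.CQ.KAxis
import Pool.Agent.Lib.MP_cd5b91_an.CQ.Nehari

/-!
# The support of a ground state cannot be cut

A Courant type bound for the number of pieces of the support of every weak solution of the critical
curl-curl equation; the support of a ground state stays connected after removing a closed set of locally
finite one-dimensional Minkowski content, or on which `u` and `∇ × u` vanish in a weak sense.
-/

namespace Pool.Agent.Results.MP_cd5b91_an.SupportPieces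

open Pool.CQ

/-- Let `u` be a weak solution of `∇ × (∇ × u) = |u|⁴ u` on `ℝ³`, `B = ∇ × u`, and let `Z` be a closed
set with one of the following properties:

* `Z` has locally finite one-dimensional (upper) Minkowski content;
* `ε⁻¹ ∫_{dist(x, Z) ≤ ε, |x| ≤ R} (|u| + |B|) → 0` for all `R` (along `ε = 4/(n+1)`);
* `u` and `B` are Lipschitz on all balls and vanish on `Z`.

Then, for every constant `S > 0` in the curl-Sobolev inequality, if the support of `u` minus `Z` splits
into `m` relatively open nonempty pieces, then `m S^{3/2} ≤ ∫ |u|⁶`; and if `u` is a ground state, then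
the support of `u` minus `Z` is connected. -/
theorem result :
    ∀ u B : E → E, WeakSol u B → ∀ Z : Set E, IsClosed Z →
      (Thin Z ∨ (Neg Z u ∧ Neg Z B) ∨
        ((∀ R : ℝ, ∃ L : NNReal, LipschitzOnWith L u (Metric.ball 0 R)) ∧
          (∀ R : ℝ, ∃ L : NNReal, LipschitzOnWith L B (Metric.ball 0 R)) ∧
          ∀ x ∈ Z, u x = 0 ∧ B x = 0)) →
      (∀ S : ℝ, 0 < S → CurlSob S → ∀ (m : ℕ) (U : Fin m → Set E), (∀ i, IsOpen (U i)) →
        (∀ i, ((esupp u \ Z) ∩ U i).Nonempty) →
        (∀ i j, i ≠ j → (esupp u \ Z) ∩ (U i ∩ U j) = ∅) →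
        esupp u \ Z ⊆ ⋃ i, U i →
        (m : ℝ) * S ^ (3 / 2 : ℝ) ≤ ∫ x, ‖u x‖ ^ 6) ∧
      (MinN u B → IsPreconnected (esupp u \ Z)) := by
  intro u B h Z hZ hc
  have hN : Neg Z u ∧ Neg Z B := by
    rcases hc with hc | ⟨hu, hB⟩ | ⟨hu, hB, h0⟩
    · exact ⟨neg_of_thin hc (lpl_two (by norm_num : (2 : ENNReal) ≤ 6) h.1.1 _),
        neg_of_thin hc (lpl_two (le_refl (2 : ENNReal)) h.1.2.1 _)⟩
    · exact ⟨hu, hB⟩
    · exact ⟨neg_of_lip hZ hu fun x hx => (h0 x hx).1, neg_of_lip hZ hB fun x hx => (h0 x hx).2⟩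
  refine ⟨fun S hS0 hS m U hU hne hdis hcov =>
    Pool.CQ.K.supp_pieces_fin h hS0 hS hZ hN.1 hN.2 hU hcov hdis hne, fun hm => ?_⟩
  have hg : GS u B := gs_of_min hm
  have hl := Pool.CQ.K.low_of_gs hg (fun _ => True)
  exact Pool.CQ.K.supp_conn_low h hl.pos hg.sob hl.low (Or.inr ⟨hZ, hN.1, hN.2⟩)

end Pool.Agent.Results.MP_cd5b91_an.SupportPieces
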