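import Pool.Agent.Lib.MP_cd5b91_an.CQ.Pub
import Pool.Agent.Lib.MP_cd5b91_an.CQ.IMain

/-!
# Unique continuation for the critical curl-curl equation when the curl has a direction of class C^1

Questions Q1 and Q2 for the solutions (in particular the ground states) whose curl is a nonnegative
multiple of a nonvanishing vector field of class `C¹`.
-/

open MeasureTheory Set
open scoped ContDiff RealInnerProductSpace

namespace Pool.Agent.Results.MP_cd5b91_an.UniqueContinuation

open Pool.CQ

/-- (1) Let `O ⊆ ℝ³` be a connected open set, `β` a vector field of class `C¹` on `O` without zeros,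
`u ∈ L⁶_loc(O)` and `B = ∇ × u ∈ L²_loc(O)` with `∇ × B = |u|⁴ u` in the sense of distributions on `O`,
and let `B` be a nonnegative multiple of `β` at almost every point of `O`. Then `u = 0` almost
everywhere on `O`, or every point of `O` is in the support of `u`.

(2) Consequently the support of a nontrivial weak solution on `ℝ³` is the whole space if its curl is a
nonnegative multiple of a `C¹` vector field without zeros on a connected open set of full measure. -/
theorem result :
    (∀ (O : Set E) (β u B : E → E), IsOpen O → IsPreconnected O → ContDiffOn ℝ 1 β O →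
      (∀ x ∈ O, β x ≠ 0) →
      (∀ K : Set E, IsCompact K → K ⊆ O →
        MemLp u 6 (volume.restrict K) ∧ MemLp B 2 (volume.restrict K)) →
      WC O u B → WC O B (fun x => ‖u x‖ ^ 4 • u x) →
      (∀ᵐ x ∂(volume.restrict O), ∃ t : ℝ, 0 ≤ t ∧ B x = t • β x) →
      (∀ᵐ x ∂(volume.restrict O), u x = 0) ∨ O ⊆ esupp u) ∧
    (∀ (O : Set E) (β u B : E → E), IsOpen O → IsPreconnected O → volume Oᶜ = 0 →
      ContDiffOn ℝ 1 β O → (∀ x ∈ O, β x ≠ 0) → WeakSol u B → ¬ (u =ᵐ[volume] fun _ => 0) →
      (∀ᵐ x, ∃ t : ℝ, 0 ≤ t ∧ B x = t • β x) → esupp u = univ) := by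
  have key : ∀ (O : Set E) (β u B : E → E), IsOpen O → IsPreconnected O → ContDiffOn ℝ 1 β O →
      (∀ x ∈ O, β x ≠ 0) → LpL 6 O u → LpL 2 O B →
      WC O u B → WC O B (fun x => ‖u x‖ ^ 4 • u x) →
      (∀ᵐ x ∂(volume.restrict O), ∃ t : ℝ, 0 ≤ t ∧ B x = t • β x) →
      ∀ U : Set E, IsOpen U → (U ∩ O).Nonempty → (∀ᵐ x ∂(volume.restrict U), u x = 0) →
      ∀ᵐ x ∂(volume.restrict O), u x = 0 :=
    fun O β u B hO hOc hβ h0 hu hB h1 h2 hs U hU hne hz =>
      Pool.CQ.I.unique1 hO hOc hβ h0 hu hB h1 h2 hs hU hne hz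
  refine ⟨?_, ?_⟩
  · intro O β u B hO hOc hβ h0 hL h1 h2 hs
    by_cases hz : ∀ᵐ x ∂(volume.restrict O), u x = 0
    · exact Or.inl hz
    · right
      intro x hx U hU hxU hUz
      exact hz (key O β u B hO hOc hβ h0 (fun K hK hKO => (hL K hK hKO).1)
        (fun K hK hKO => (hL K hK hKO).2) h1 h2 hs U hU ⟨x, hxU, hx⟩ hUz)
  · intro O β u B hO hOc hnull hβ h0 hw hne hs
    have hae : volume.restrict O = (volume : Measure E) := by
      rw [Measure.restrict_eq_self_of_ae_mem]
      exact mem_ae_iff.2 hnull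
    refine eq_univ_of_forall fun x U hU hxU hUz => hne ?_
    have hUO : (U ∩ O).Nonempty := by
      by_contra hemp
      rw [not_nonempty_iff_eq_empty] at hemp
      have h3 : U ⊆ Oᶜ := fun y hy hyO => by
        have : y ∈ U ∩ O := ⟨hy, hyO⟩
        rw [hemp] at this
        exact this
      exact (hU.measure_pos volume ⟨x, hxU⟩).ne' (measure_mono_null h3 hnull)
    have h3 := key O β u B hO hOc hβ h0 (fun K _ _ => hw.1.1.restrict K)
      (fun K _ _ => hw.1.2.1.restrict K)
      (fun φ hφ => hw.1.2.2 φ ⟨hφ.1, hφ.2.1, subset_univ _⟩)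
      (fun φ hφ => hw.2 φ ⟨hφ.1, hφ.2.1, subset_univ _⟩) (by rw [hae]; exact hs) U hU hUO hUz
    rwa [hae] at h3

end Pool.Agent.Results.MP_cd5b91_an.UniqueContinuation
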